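import Mathlib

set_option autoImplicit false

namespace Pool.Agent.H53.Mader

variable {V : Type} [DecidableEq V]

/-- A finite hypergraph: a finite vertex set and a finite set of edges, each a set of vertices. -/
structure HG (V : Type) where
  /-- The vertex set. -/
  verts : Finset V
  /-- The edge set. -/
  edges : Finset (Finset V)
  edge_sub : ∀ e ∈ edges, e ⊆ verts

/-- Every edge has exactly `r` vertices. -/
def HG.Uniform (H : HG V) (r : ℕ) : Prop := ∀ e ∈ H.edges, e.card = r

/-- `H'` is a subgraph of `H`. -/
def HG.IsSub (H' H : HG V) : Prop := H'.verts ⊆ H.verts ∧ H'.edges ⊆ H.edges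

/-- Deleting the vertex set `X`: removes `X` and every edge meeting `X`. -/
def HG.del (H : HG V) (X : Finset V) : HG V where
  verts := H.verts \ X
  edges := H.edges.filter (fun e => Disjoint e X)
  edge_sub := by
    intro e he
    rw [Finset.mem_filter] at he
    intro x hx
    rw [Finset.mem_sdiff]
    exact ⟨H.edge_sub e he.1 hx, fun hxX => (Finset.disjoint_left.1 he.2 hx hxX)⟩

/-- `H` is connected: any two vertices are joined by a sequence of vertices in which consecutive
ones lie in a common edge. -/
def HG.Connected (H : HG V) : Prop :=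
  ∀ x ∈ H.verts, ∀ y ∈ H.verts,
    Relation.ReflTransGen (fun a b => ∃ e ∈ H.edges, a ∈ e ∧ b ∈ e) x y

/-- `H` is `(k+1)`-connected: it has at least `k + 2` vertices and stays connected after deleting
any `k` of its vertices. -/
def HG.SuccConnected (H : HG V) (k : ℕ) : Prop :=
  k + 2 ≤ H.verts.card ∧ ∀ X ⊆ H.verts, X.card = k → (H.del X).Connected

/-- `H` has no `(k+1)`-connected subgraph. -/
def HG.Free (H : HG V) (k : ℕ) : Prop := ∀ H' : HG V, H'.IsSub H → ¬ H'.SuccConnected k

end Pool.Agent.H53.Mader
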