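import Mathlib
import Pool.Agent.H53.Mader.Defs

set_option autoImplicit false

namespace Pool.Agent.H53.Mader

open Finset

variable {V : Type} [DecidableEq V]

/-- A separation of `S` (with respect to the edge set `E`) of order `k`. -/
structure Sep (E : Finset (Finset V)) (k : ℕ) (S Z A B : Finset V) : Prop where
  union : S = Z ∪ A ∪ B
  dZA : Disjoint Z A
  dZB : Disjoint Z B
  dAB : Disjoint A B
  cardZ : Z.card = k
  neA : A.Nonempty
  neB : B.Nonempty
  cross : ∀ e ∈ E, e ⊆ A ∪ B → e ⊆ A ∨ e ⊆ B

theorem Sep.symm {E : Finset (Finset V)} {k : ℕ} {S Z A B : Finset V} (h : Sep E k S Z A B) :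
    Sep E k S Z B A where
  union := by rw [h.union, union_assoc, union_comm A B, ← union_assoc]
  dZA := h.dZB
  dZB := h.dZA
  dAB := h.dAB.symm
  cardZ := h.cardZ
  neA := h.neB
  neB := h.neA
  cross := by
    intro e he hs
    rw [union_comm] at hs
    exact (h.cross e he hs).symm

/-- Number of non-edges inside `S`. -/
def NN (E : Finset (Finset V)) (r : ℕ) (S : Finset V) : ℕ :=
  ((powersetCard r S).filter (fun e => e ∉ E)).card

/-- Number of edges inside `S`. -/
def EE (E : Finset (Finset V)) (r : ℕ) (S : Finset V) : ℕ :=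
  ((powersetCard r S).filter (fun e => e ∈ E)).card

theorem EE_add_NN (E : Finset (Finset V)) (r : ℕ) (S : Finset V) :
    EE E r S + NN E r S = S.card.choose r := by
  unfold EE NN
  rw [← card_powersetCard]
  exact card_filter_add_card_filter_not (fun e => e ∈ E)

theorem EE_le (E : Finset (Finset V)) (r : ℕ) (S : Finset V) :
    EE E r S ≤ S.card.choose r := by
  have := EE_add_NN E r S
  omega

/-- Every subset of `U` with at least `k + 2` elements has a separation of order `k`. -/
def Good (E : Finset (Finset V)) (k : ℕ) (U : Finset V) : Prop :=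
  ∀ S ⊆ U, k + 2 ≤ S.card → ∃ Z A B : Finset V, Sep E k S Z A B

theorem good_of_free {H : HG V} {k : ℕ} (hf : H.Free k) : Good H.edges k H.verts := by
  intro S hS hcard
  let H' : HG V :=
    { verts := S
      edges := H.edges.filter (fun e => e ⊆ S)
      edge_sub := by
        intro e he
        exact (mem_filter.1 he).2 }
  have hsub : H'.IsSub H := ⟨hS, filter_subset _ _⟩
  have hnot := hf H' hsub
  unfold HG.SuccConnected at hnot
  push Not at hnot
  obtain ⟨X, hXS, hXk, hXc⟩ := hnot hcard
  have hXS' : X ⊆ S := hXS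
  unfold HG.Connected at hXc
  push Not at hXc
  obtain ⟨x, hx, y, hy, hxy⟩ := hXc
  classical
  let R : V → V → Prop := fun a b => ∃ e ∈ (H'.del X).edges, a ∈ e ∧ b ∈ e
  let A : Finset V := (S \ X).filter (fun v => Relation.ReflTransGen R x v)
  let B : Finset V := (S \ X).filter (fun v => ¬ Relation.ReflTransGen R x v)
  have hAB : A ∪ B = S \ X := filter_union_filter_not_eq _ _
  have hx' : x ∈ S \ X := hx
  have hy' : y ∈ S \ X := hy
  refine ⟨X, A, B, ?_⟩
  refine
    { union := ?_
      dZA := ?_
      dZB := ?_
      dAB := disjoint_filter_filter_not _ _ _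
      cardZ := hXk
      neA := ⟨x, mem_filter.2 ⟨hx', Relation.ReflTransGen.refl⟩⟩
      neB := ⟨y, mem_filter.2 ⟨hy', hxy⟩⟩
      cross := ?_ }
  · rw [union_assoc, hAB, union_sdiff_of_subset hXS']
  · exact (disjoint_sdiff).mono_right (filter_subset _ _)
  · exact (disjoint_sdiff).mono_right (filter_subset _ _)
  · intro e he hs
    rw [hAB] at hs
    have heS : e ⊆ S := hs.trans sdiff_subset
    have heX : Disjoint e X := (disjoint_sdiff.mono_right hs).symm
    have heD : e ∈ (H'.del X).edges := by
      show e ∈ (H.edges.filter (fun e => e ⊆ S)).filter (fun e => Disjoint e X)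
      rw [mem_filter, mem_filter]
      exact ⟨⟨he, heS⟩, heX⟩
    by_cases hA : ∃ a ∈ e, a ∈ A
    · left
      obtain ⟨a, hae, haA⟩ := hA
      intro b hb
      have h1 : Relation.ReflTransGen R x a := (mem_filter.1 haA).2
      exact mem_filter.2 ⟨hs hb, h1.tail ⟨e, heD, hae, hb⟩⟩
    · right
      push Not at hA
      intro b hb
      have h1 := hA b hb
      refine mem_filter.2 ⟨hs hb, fun h2 => h1 (mem_filter.2 ⟨hs hb, h2⟩)⟩

section counting

variable {E : Finset (Finset V)} {k r : ℕ} {S Z A B : Finset V}

theorem Sep.card (h : Sep E k S Z A B) : S.card = k + A.card + B.card := by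
  rw [h.union, card_union_of_disjoint, card_union_of_disjoint h.dZA, h.cardZ]
  rw [disjoint_union_left]
  exact ⟨h.dZB, h.dAB⟩

theorem Sep.card_ZA (h : Sep E k S Z A B) : (Z ∪ A).card = k + A.card := by
  rw [card_union_of_disjoint h.dZA, h.cardZ]

theorem Sep.card_ZB (h : Sep E k S Z A B) : (Z ∪ B).card = k + B.card := by
  rw [card_union_of_disjoint h.dZB, h.cardZ]

theorem Sep.card_AB (h : Sep E k S Z A B) : (A ∪ B).card = A.card + B.card :=
  card_union_of_disjoint h.dAB

theorem Sep.subZA (h : Sep E k S Z A B) : Z ∪ A ⊆ S := by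
  rw [h.union]; exact subset_union_left

theorem Sep.subZB (h : Sep E k S Z A B) : Z ∪ B ⊆ S := by
  rw [h.union, union_assoc, union_comm A B, ← union_assoc]; exact subset_union_left

theorem Sep.subAB (h : Sep E k S Z A B) : A ∪ B ⊆ S := by
  rw [h.union, union_assoc]; exact subset_union_right

theorem Sep.subZ (h : Sep E k S Z A B) : Z ⊆ S := subset_union_left.trans h.subZA

/-- First counting inequality. -/
theorem Sep.F1 (h : Sep E k S Z A B) (r : ℕ) :
    (A.card + B.card).choose r + NN E r (Z ∪ B) ≤
      NN E r S + B.card.choose r + EE E r A := by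
  -- all `r`-subsets of `A ∪ B`
  have h1 : powersetCard r (A ∪ B) ⊆
      powersetCard r B ∪ (powersetCard r A).filter (fun e => e ∈ E) ∪
        ((powersetCard r (A ∪ B)).filter (fun e => e ∉ E ∧ ¬ e ⊆ B)) := by
    intro e he
    rw [mem_powersetCard] at he
    rw [mem_union, mem_union, mem_filter, mem_filter, mem_powersetCard, mem_powersetCard,
      mem_powersetCard]
    by_cases hB : e ⊆ B
    · exact Or.inl (Or.inl ⟨hB, he.2⟩)
    by_cases hE : e ∈ E
    · rcases h.cross e hE he.1 with h2 | h2
      · exact Or.inl (Or.inr ⟨⟨h2, he.2⟩, hE⟩)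
      · exact absurd h2 hB
    · exact Or.inr ⟨he, hE, hB⟩
  have h2 := card_le_card h1
  rw [card_powersetCard, h.card_AB] at h2
  have h3 := card_union_le (powersetCard r B ∪ (powersetCard r A).filter (fun e => e ∈ E))
    ((powersetCard r (A ∪ B)).filter (fun e => e ∉ E ∧ ¬ e ⊆ B))
  have h4 := card_union_le (powersetCard r B) ((powersetCard r A).filter (fun e => e ∈ E))
  rw [card_powersetCard] at h4
  have h5 : ((powersetCard r (A ∪ B)).filter (fun e => e ∉ E ∧ ¬ e ⊆ B)).card +
      NN E r (Z ∪ B) ≤ NN E r S := by
    unfold NN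
    rw [← card_union_of_disjoint]
    · apply card_le_card
      intro e he
      rw [mem_union, mem_filter, mem_filter, mem_powersetCard, mem_powersetCard] at he
      rw [mem_filter, mem_powersetCard]
      rcases he with ⟨⟨h6, h7⟩, h8, -⟩ | ⟨⟨h6, h7⟩, h8⟩
      · exact ⟨⟨h6.trans h.subAB, h7⟩, h8⟩
      · exact ⟨⟨h6.trans h.subZB, h7⟩, h8⟩
    · rw [disjoint_left]
      intro e he he'
      rw [mem_filter, mem_powersetCard] at he he'
      apply he.2.2
      intro x hx
      have hx1 := he.1.1 hx
      have hx2 := he'.1.1 hx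
      rw [mem_union] at hx1 hx2
      rcases hx2 with hx2 | hx2
      · rcases hx1 with hx1 | hx1
        · exact absurd hx1 (disjoint_left.1 h.dZA hx2)
        · exact hx1
      · exact hx2
  unfold EE
  omega

/-- Second counting inequality. -/
theorem Sep.F2 (h : Sep E k S Z A B) (r : ℕ) :
    (A.card + B.card).choose r + NN E r (Z ∪ A) + NN E r (Z ∪ B) ≤
      NN E r S + A.card.choose r + B.card.choose r + NN E r Z := by
  have h1 : powersetCard r (A ∪ B) ⊆
      powersetCard r A ∪ powersetCard r B ∪
        ((powersetCard r (A ∪ B)).filter (fun e => ¬ e ⊆ A ∧ ¬ e ⊆ B)) := by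
    intro e he
    rw [mem_powersetCard] at he
    rw [mem_union, mem_union, mem_filter, mem_powersetCard, mem_powersetCard,
      mem_powersetCard]
    by_cases hB : e ⊆ B
    · exact Or.inl (Or.inr ⟨hB, he.2⟩)
    by_cases hA : e ⊆ A
    · exact Or.inl (Or.inl ⟨hA, he.2⟩)
    · exact Or.inr ⟨he, hA, hB⟩
  have h2 := card_le_card h1
  rw [card_powersetCard, h.card_AB] at h2
  have h3 := card_union_le (powersetCard r A ∪ powersetCard r B)
    ((powersetCard r (A ∪ B)).filter (fun e => ¬ e ⊆ A ∧ ¬ e ⊆ B))
  have h4 := card_union_le (powersetCard r A) (powersetCard r B)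
  rw [card_powersetCard, card_powersetCard] at h4
  have h6 : ((powersetCard r (Z ∪ A)).filter (fun e => e ∉ E) ∪
      (powersetCard r (Z ∪ B)).filter (fun e => e ∉ E)).card +
      ((powersetCard r (Z ∪ A)).filter (fun e => e ∉ E) ∩
      (powersetCard r (Z ∪ B)).filter (fun e => e ∉ E)).card = NN E r (Z ∪ A) + NN E r (Z ∪ B) :=
    card_union_add_card_inter _ _
  have h7 : ((powersetCard r (Z ∪ A)).filter (fun e => e ∉ E) ∩
      (powersetCard r (Z ∪ B)).filter (fun e => e ∉ E)).card ≤ NN E r Z := by
    unfold NN
    apply card_le_card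
    intro e he
    rw [mem_inter, mem_filter, mem_filter, mem_powersetCard, mem_powersetCard] at he
    rw [mem_filter, mem_powersetCard]
    refine ⟨⟨?_, he.1.1.2⟩, he.1.2⟩
    intro x hx
    have hx1 := he.1.1.1 hx
    have hx2 := he.2.1.1 hx
    rw [mem_union] at hx1 hx2
    rcases hx1 with hx1 | hx1
    · exact hx1
    · rcases hx2 with hx2 | hx2
      · exact hx2
      · exact absurd hx2 (disjoint_left.1 h.dAB hx1)
  have h5 : ((powersetCard r (A ∪ B)).filter (fun e => ¬ e ⊆ A ∧ ¬ e ⊆ B)).card +
      ((powersetCard r (Z ∪ A)).filter (fun e => e ∉ E) ∪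
      (powersetCard r (Z ∪ B)).filter (fun e => e ∉ E)).card ≤ NN E r S := by
    unfold NN
    rw [← card_union_of_disjoint]
    · apply card_le_card
      intro e he
      rw [mem_union, mem_union, mem_filter, mem_filter, mem_filter, mem_powersetCard,
        mem_powersetCard, mem_powersetCard] at he
      rw [mem_filter, mem_powersetCard]
      rcases he with ⟨⟨h6, h7⟩, h8, h9⟩ | ⟨⟨h6, h7⟩, h8⟩ | ⟨⟨h6, h7⟩, h8⟩
      · refine ⟨⟨h6.trans h.subAB, h7⟩, ?_⟩
        intro hE
        rcases h.cross e hE h6 with h10 | h10
        · exact h8 h10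
        · exact h9 h10
      · exact ⟨⟨h6.trans h.subZA, h7⟩, h8⟩
      · exact ⟨⟨h6.trans h.subZB, h7⟩, h8⟩
    · rw [disjoint_left]
      intro e he he'
      rw [mem_filter, mem_powersetCard] at he
      rw [mem_union, mem_filter, mem_filter, mem_powersetCard, mem_powersetCard] at he'
      rcases he' with he' | he'
      · apply he.2.1
        intro x hx
        have hx1 := he.1.1 hx
        have hx2 := he'.1.1 hx
        rw [mem_union] at hx1 hx2
        rcases hx2 with hx2 | hx2
        · rcases hx1 with hx1 | hx1
          · exact hx1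
          · exact absurd hx1 (disjoint_left.1 h.dZB hx2)
        · exact hx2
      · apply he.2.2
        intro x hx
        have hx1 := he.1.1 hx
        have hx2 := he'.1.1 hx
        rw [mem_union] at hx1 hx2
        rcases hx2 with hx2 | hx2
        · rcases hx1 with hx1 | hx1
          · exact absurd hx1 (disjoint_left.1 h.dZA hx2)
          · exact hx1
        · exact hx2
  omega

/-- Third counting inequality: non-edges outside a set missing a vertex `v ∈ A`. -/
theorem Sep.F3 (h : Sep E k S Z A B) {r : ℕ} (hr : 2 ≤ r) {Y : Finset V} (hY : Y ⊆ S) {v : V}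
    (hv : v ∈ A) (hvY : v ∉ Y) :
    NN E r Y + (A.card + B.card - 2).choose (r - 2) ≤ NN E r S := by
  obtain ⟨u, hu⟩ := h.neB
  have huv : u ≠ v := by
    rintro rfl
    exact disjoint_left.1 h.dAB hv hu
  let P := (powersetCard (r - 2) ((A ∪ B) \ {u, v})).image (fun e => insert u (insert v e))
  have hPcard : P.card = (A.card + B.card - 2).choose (r - 2) := by
    rw [card_image_of_injOn, card_powersetCard]
    · congr 1
      rw [card_sdiff_of_subset, h.card_AB, card_pair huv]
      intro x hx
      rw [mem_insert, mem_singleton] at hx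
      rcases hx with rfl | rfl
      · exact mem_union_right _ hu
      · exact mem_union_left _ hv
    · intro e he e' he' hee
      rw [mem_coe, mem_powersetCard] at he he'
      have hue : u ∉ e := fun hx => by
        have := he.1 hx
        simp at this
      have hve : v ∉ e := fun hx => by
        have := he.1 hx
        simp at this
      have hue' : u ∉ e' := fun hx => by
        have := he'.1 hx
        simp at this
      have hve' : v ∉ e' := fun hx => by
        have := he'.1 hx
        simp at this
      ext x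
      have hx := congrArg (fun s => x ∈ s) hee
      simp only [mem_insert, eq_iff_iff] at hx
      constructor
      · intro h1
        rcases hx.1 (Or.inr (Or.inr h1)) with h2 | h2 | h2
        · exact absurd (h2 ▸ h1) hue
        · exact absurd (h2 ▸ h1) hve
        · exact h2
      · intro h1
        rcases hx.2 (Or.inr (Or.inr h1)) with h2 | h2 | h2
        · exact absurd (h2 ▸ h1) hue'
        · exact absurd (h2 ▸ h1) hve'
        · exact h2
  rw [← hPcard]
  unfold NN
  rw [← card_union_of_disjoint]
  · apply card_le_card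
    intro e he
    rw [mem_union, mem_filter, mem_powersetCard, mem_image] at he
    rw [mem_filter, mem_powersetCard]
    rcases he with ⟨⟨h1, h2⟩, h3⟩ | ⟨e', he', rfl⟩
    · exact ⟨⟨h1.trans hY, h2⟩, h3⟩
    · rw [mem_powersetCard] at he'
      have hue : u ∉ e' := fun hx => by
        have := he'.1 hx
        simp at this
      have hve : v ∉ e' := fun hx => by
        have := he'.1 hx
        simp at this
      have hs : insert u (insert v e') ⊆ A ∪ B := by
        intro x hx
        rw [mem_insert, mem_insert] at hx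
        rcases hx with rfl | rfl | hx
        · exact mem_union_right _ hu
        · exact mem_union_left _ hv
        · exact (mem_sdiff.1 (he'.1 hx)).1
      refine ⟨⟨hs.trans h.subAB, ?_⟩, ?_⟩
      · rw [card_insert_of_notMem, card_insert_of_notMem hve, he'.2]
        · omega
        · rw [mem_insert]
          push Not
          exact ⟨huv, hue⟩
      · intro hE
        rcases h.cross _ hE hs with h1 | h1
        · exact disjoint_left.1 h.dAB (h1 (mem_insert_self _ _)) hu
        · exact disjoint_left.1 h.dAB hv (h1 (mem_insert_of_mem (mem_insert_self _ _)))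
  · rw [disjoint_left]
    intro e he he'
    rw [mem_filter, mem_powersetCard] at he
    rw [mem_image] at he'
    obtain ⟨e', -, rfl⟩ := he'
    exact hvY (he.1.1 (mem_insert_of_mem (mem_insert_self _ _)))

/-- Edges inside two disjoint subsets. -/
theorem EE_add_le {E : Finset (Finset V)} {r : ℕ} (hr : 1 ≤ r) {A B Y : Finset V}
    (hd : Disjoint A B) (hA : A ⊆ Y) (hB : B ⊆ Y) : EE E r A + EE E r B ≤ EE E r Y := by
  unfold EE
  rw [← card_union_of_disjoint]
  · apply card_le_card
    intro e he
    rw [mem_union, mem_filter, mem_filter, mem_powersetCard, mem_powersetCard] at he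
    rw [mem_filter, mem_powersetCard]
    rcases he with ⟨⟨h1, h2⟩, h3⟩ | ⟨⟨h1, h2⟩, h3⟩
    · exact ⟨⟨h1.trans hA, h2⟩, h3⟩
    · exact ⟨⟨h1.trans hB, h2⟩, h3⟩
  · rw [disjoint_left]
    intro e he he'
    rw [mem_filter, mem_powersetCard] at he he'
    have hne : e.Nonempty := by
      rw [← card_pos, he.1.2]; omega
    obtain ⟨x, hx⟩ := hne
    exact disjoint_left.1 hd (he.1.1 hx) (he'.1.1 hx)

theorem edges_card_eq {H : HG V} {r : ℕ} (hu : H.Uniform r) :
    H.edges.card = EE H.edges r H.verts := by
  unfold EE
  congr 1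
  ext e
  rw [mem_filter, mem_powersetCard]
  constructor
  · intro he
    exact ⟨⟨H.edge_sub e he, hu e he⟩, he⟩
  · intro he
    exact he.2

end counting

end Pool.Agent.H53.Mader
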