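import Mathlib

set_option autoImplicit false

namespace Pool.Agent.H53.Mader

/-- A concave integer sequence that is nonnegative at the ends is nonnegative in between. -/
theorem concave_nonneg (h : ℕ → ℤ) (lo hi : ℕ)
    (hc : ∀ i j, lo ≤ i → i ≤ j → j < hi → h (j + 1) - h j ≤ h (i + 1) - h i)
    (h0 : 0 ≤ h lo) (h1 : 0 ≤ h hi) (a : ℕ) (ha : lo ≤ a) (hb : a ≤ hi) : 0 ≤ h a := by
  by_cases hd : ∀ j, lo ≤ j → j < a → 0 ≤ h (j + 1) - h j
  · have key : ∀ t, lo + t ≤ a → 0 ≤ h (lo + t) := by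
      intro t
      induction t with
      | zero => intro _; simpa using h0
      | succ t ih =>
        intro ht
        have h2 := ih (by omega)
        have h3 := hd (lo + t) (by omega) (by omega)
        have h4 : lo + (t + 1) = lo + t + 1 := by ring
        rw [h4]
        linarith
    have := key (a - lo) (by omega)
    rwa [Nat.add_sub_cancel' ha] at this
  · push Not at hd
    obtain ⟨j, hj1, hj2, hj3⟩ := hd
    have key : ∀ t, a + t ≤ hi → h (a + t) ≤ h a := by
      intro t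
      induction t with
      | zero => intro _; simp
      | succ t ih =>
        intro ht
        have h2 := ih (by omega)
        have h3 := hc j (a + t) hj1 (by omega) (by omega)
        have h4 : a + (t + 1) = a + t + 1 := by ring
        rw [h4]
        linarith
    have := key (hi - a) (by omega)
    rw [Nat.add_sub_cancel' hb] at this
    linarith

theorem choose_step (n r : ℕ) : (n + 1).choose (r + 1) = n.choose r + n.choose (r + 1) :=
  Nat.choose_succ_succ n r

/-- `2^r C(a,r) ≤ C(2a,r)`. -/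
theorem two_pow_choose (a r : ℕ) : 2 ^ r * a.choose r ≤ (2 * a).choose r := by
  have key : ∀ r, 2 ^ r * a.descFactorial r ≤ (2 * a).descFactorial r := by
    intro r
    induction r with
    | zero => simp
    | succ r ih =>
      rw [Nat.descFactorial_succ, Nat.descFactorial_succ]
      calc 2 ^ (r + 1) * ((a - r) * a.descFactorial r)
          = (2 * (a - r)) * (2 ^ r * a.descFactorial r) := by ring
        _ ≤ (2 * a - r) * (2 * a).descFactorial r := Nat.mul_le_mul (by omega) ih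
  have h := key r
  rw [Nat.descFactorial_eq_factorial_mul_choose, Nat.descFactorial_eq_factorial_mul_choose] at h
  have h2 : r.factorial * (2 ^ r * a.choose r) ≤ r.factorial * ((2 * a).choose r) := by
    calc r.factorial * (2 ^ r * a.choose r) = 2 ^ r * (r.factorial * a.choose r) := by ring
      _ ≤ _ := h
  exact Nat.le_of_mul_le_mul_left h2 (Nat.factorial_pos r)

/-- odd case: `2^r (2a-1) C(a,r) ≤ 2a C(2a-1,r)`, written with `a = c + 1`. -/
theorem two_pow_choose_odd (c r : ℕ) (hr : 1 ≤ r) :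
    2 ^ r * ((2 * c + 1) * (c + 1).choose r) ≤ (2 * c + 2) * (2 * c + 1).choose r := by
  have key : ∀ s, 2 ^ (s + 1) * ((2 * c + 1) * (c + 1).descFactorial (s + 1)) ≤
      (2 * c + 2) * (2 * c + 1).descFactorial (s + 1) := by
    intro s
    induction s with
    | zero =>
      rw [zero_add, Nat.descFactorial_one, Nat.descFactorial_one]
      apply le_of_eq; ring
    | succ s ih =>
      rw [Nat.descFactorial_succ (c + 1) (s + 1), Nat.descFactorial_succ (2 * c + 1) (s + 1)]
      calc 2 ^ (s + 1 + 1) * ((2 * c + 1) * ((c + 1 - (s + 1)) * (c + 1).descFactorial (s + 1)))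
          = (2 * (c + 1 - (s + 1))) *
              (2 ^ (s + 1) * ((2 * c + 1) * (c + 1).descFactorial (s + 1))) := by ring
        _ ≤ (2 * c + 1 - (s + 1)) * ((2 * c + 2) * (2 * c + 1).descFactorial (s + 1)) :=
            Nat.mul_le_mul (by omega) ih
        _ = _ := by ring
  obtain ⟨s, rfl⟩ : ∃ s, r = s + 1 := ⟨r - 1, by omega⟩
  have h := key s
  rw [Nat.descFactorial_eq_factorial_mul_choose, Nat.descFactorial_eq_factorial_mul_choose] at h
  have h2 : (s + 1).factorial * (2 ^ (s + 1) * ((2 * c + 1) * (c + 1).choose (s + 1))) ≤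
      (s + 1).factorial * ((2 * c + 2) * (2 * c + 1).choose (s + 1)) := by
    calc _ = 2 ^ (s + 1) * ((2 * c + 1) * ((s + 1).factorial * (c + 1).choose (s + 1))) := by ring
      _ ≤ _ := h
      _ = _ := by ring
  exact Nat.le_of_mul_le_mul_left h2 (Nat.factorial_pos _)

/-- even case: with `k = 2c + 2`, `2^r (k-1) C(c+2,r) ≤ (k+2) C(k,r)`. -/
theorem two_pow_choose_even (c r : ℕ) (hr : 2 ≤ r) :
    2 ^ r * ((2 * c + 1) * (c + 2).choose r) ≤ (2 * c + 4) * (2 * c + 2).choose r := by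
  have key : ∀ s, 2 ^ (s + 2) * ((2 * c + 1) * (c + 2).descFactorial (s + 2)) ≤
      (2 * c + 4) * (2 * c + 2).descFactorial (s + 2) := by
    intro s
    induction s with
    | zero =>
      have h1 : (c + 2).descFactorial (0 + 2) = (c + 1) * (c + 2) := by
        rw [zero_add, Nat.descFactorial_succ, Nat.descFactorial_one]; simp
      have h2 : (2 * c + 2).descFactorial (0 + 2) = (2 * c + 1) * (2 * c + 2) := by
        rw [zero_add, Nat.descFactorial_succ, Nat.descFactorial_one]; simp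
      rw [h1, h2]
      apply le_of_eq; ring
    | succ s ih =>
      rw [Nat.descFactorial_succ (c + 2) (s + 2), Nat.descFactorial_succ (2 * c + 2) (s + 2)]
      calc 2 ^ (s + 1 + 2) * ((2 * c + 1) * ((c + 2 - (s + 2)) * (c + 2).descFactorial (s + 2)))
          = (2 * (c + 2 - (s + 2))) *
              (2 ^ (s + 2) * ((2 * c + 1) * (c + 2).descFactorial (s + 2))) := by ring
        _ ≤ (2 * c + 2 - (s + 2)) * ((2 * c + 4) * (2 * c + 2).descFactorial (s + 2)) :=
            Nat.mul_le_mul (by omega) ih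
        _ = _ := by ring
  obtain ⟨s, rfl⟩ : ∃ s, r = s + 2 := ⟨r - 2, by omega⟩
  have h := key s
  rw [Nat.descFactorial_eq_factorial_mul_choose, Nat.descFactorial_eq_factorial_mul_choose] at h
  have h2 : (s + 2).factorial * (2 ^ (s + 2) * ((2 * c + 1) * (c + 2).choose (s + 2))) ≤
      (s + 2).factorial * ((2 * c + 4) * (2 * c + 2).choose (s + 2)) := by
    calc _ = 2 ^ (s + 2) * ((2 * c + 1) * ((s + 2).factorial * (c + 2).choose (s + 2))) := by ring
      _ ≤ _ := h
      _ = _ := by ring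
  exact Nat.le_of_mul_le_mul_left h2 (Nat.factorial_pos _)

/-- Difference of `C(·,r)` as integers. -/
theorem choose_diff (n r : ℕ) (hr : 1 ≤ r) :
    ((n + 1).choose r : ℤ) - (n.choose r : ℤ) = (n.choose (r - 1) : ℤ) := by
  obtain ⟨s, rfl⟩ : ∃ s, r = s + 1 := ⟨r - 1, by omega⟩
  rw [choose_step]; push_cast; simp

theorem choose_mono_int {i j : ℕ} (s : ℕ) (h : i ≤ j) : (i.choose s : ℤ) ≤ (j.choose s : ℤ) := by
  exact_mod_cast Nat.choose_le_choose s h

/-- `k C(k-1,r) = (k-r) C(k,r)` as integers. -/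
theorem mul_choose_pred (k r : ℕ) (hk : 1 ≤ k) (hrk : r ≤ k) :
    (k : ℤ) * ((k - 1).choose r : ℤ) = ((k : ℤ) - r) * (k.choose r : ℤ) := by
  obtain ⟨n, rfl⟩ : ∃ n, k = n + 1 := ⟨k - 1, by omega⟩
  have h := Nat.choose_mul_succ_eq n r
  have h2 : (((n + 1 - r : ℕ) : ℤ)) = ((n + 1 : ℕ) : ℤ) - r := by
    rw [Nat.cast_sub hrk]
  have h3 : ((n.choose r * (n + 1) : ℕ) : ℤ) = (((n + 1).choose r * (n + 1 - r) : ℕ) : ℤ) := by
    rw [h]
  push_cast at h3 h2 ⊢
  rw [h2] at h3
  linarith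

/-- (n3) -/
theorem n3 (r k a : ℕ) (hr : 2 ≤ r) (hrk : r ≤ k) (ha : 1 ≤ a) (hak : a < k) :
    (k : ℤ) * (a.choose r : ℤ) ≤ ((a : ℤ) - 1) * (k.choose r : ℤ) := by
  obtain ⟨f, hf⟩ : ∃ f : ℕ → ℤ, ∀ a : ℕ, f a =
      ((a : ℤ) - 1) * (k.choose r : ℤ) - (k : ℤ) * (a.choose r : ℤ) := ⟨_, fun _ => rfl⟩
  have hconc : ∀ i j, 1 ≤ i → i ≤ j → j < k - 1 → f (j + 1) - f j ≤ f (i + 1) - f i := by
    intro i j _ hij _
    rw [hf, hf, hf, hf]
    have h1 := choose_diff i r (by omega)
    have h2 := choose_diff j r (by omega)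
    have h3 := choose_mono_int (r - 1) hij
    have h4 : (k : ℤ) * (i.choose (r - 1) : ℤ) ≤ (k : ℤ) * (j.choose (r - 1) : ℤ) :=
      mul_le_mul_of_nonneg_left h3 (by positivity)
    push_cast
    nlinarith
  have h0 : 0 ≤ f 1 := by
    rw [hf]
    have : (1 : ℕ).choose r = 0 := Nat.choose_eq_zero_of_lt (by omega)
    rw [this]; simp
  have h1 : 0 ≤ f (k - 1) := by
    rw [hf, mul_choose_pred k r (by omega) hrk]
    have h1 : (((k - 1 : ℕ)) : ℤ) = (k : ℤ) - 1 := by
      rw [Nat.cast_sub (by omega)]; simp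
    rw [h1]
    have h2 : (0 : ℤ) ≤ (k.choose r : ℤ) := by positivity
    have h3 : (2 : ℤ) ≤ r := by exact_mod_cast hr
    nlinarith
  have key := concave_nonneg f 1 (k - 1) hconc h0 h1 a ha (by omega)
  rw [hf] at key
  linarith

/-- (n4) -/
theorem n4 (r k : ℕ) (hk : k ≤ 2 ^ r) : k * (k / 2).choose r ≤ k.choose r := by
  calc k * (k / 2).choose r ≤ 2 ^ r * (k / 2).choose r := Nat.mul_le_mul_right _ hk
    _ ≤ (2 * (k / 2)).choose r := two_pow_choose _ _
    _ ≤ k.choose r := Nat.choose_le_choose _ (Nat.mul_div_le k 2)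

/-- (β0) -/
theorem beta0 (r k a : ℕ) (hr : 3 ≤ r) (hrk : r ≤ k) (hk : k ≤ 2 ^ r) (ha : k < 2 * a)
    (hak : a ≤ k) : (k : ℤ) * (a.choose r : ℤ) ≤ (2 * (a : ℤ) - k) * (k.choose r : ℤ) := by
  obtain ⟨f, hf⟩ : ∃ f : ℕ → ℤ, ∀ a : ℕ, f a =
      (2 * (a : ℤ) - k) * (k.choose r : ℤ) - (k : ℤ) * (a.choose r : ℤ) := ⟨_, fun _ => rfl⟩
  have hconc : ∀ i j, k / 2 + 1 ≤ i → i ≤ j → j < k → f (j + 1) - f j ≤ f (i + 1) - f i := by
    intro i j _ hij _
    rw [hf, hf, hf, hf]
    have h1 := choose_diff i r (by omega)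
    have h2 := choose_diff j r (by omega)
    have h3 := choose_mono_int (r - 1) hij
    have h4 : (k : ℤ) * (i.choose (r - 1) : ℤ) ≤ (k : ℤ) * (j.choose (r - 1) : ℤ) :=
      mul_le_mul_of_nonneg_left h3 (by positivity)
    push_cast
    nlinarith
  suffices hleft : 0 ≤ f (k / 2 + 1) by
    have hright : 0 ≤ f k := by
      rw [hf]; nlinarith
    have key := concave_nonneg f (k / 2 + 1) k hconc hleft hright a (by omega) hak
    rw [hf] at key
    linarith
  · rw [hf]
    -- left end point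
    rcases Nat.even_or_odd' k with ⟨c, hc | hc⟩
    · -- k = 2c even, c = c' + 1
      obtain ⟨d, rfl⟩ : ∃ d, c = d + 1 := ⟨c - 1, by omega⟩
      have hk2 : k / 2 + 1 = d + 2 := by omega
      have h1 := two_pow_choose_even d r (by omega)
      have hk3 : k = 2 * d + 2 := by omega
      rw [hk2]
      subst hk3
      have hd : 1 ≤ d := by omega
      -- k (k+2) ≤ 2^(r+1) (k-1)
      have h2 : (2 * d + 2) * (2 * d + 4) ≤ 2 * (2 ^ r * (2 * d + 1)) := by
        calc (2 * d + 2) * (2 * d + 4) ≤ 2 ^ r * (2 * d + 4) := Nat.mul_le_mul_right _ hk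
          _ ≤ 2 ^ r * (2 * (2 * d + 1)) := Nat.mul_le_mul_left _ (by omega)
          _ = _ := by ring
      have h3 : (2 ^ r * (2 * d + 1)) * ((2 * d + 2) * (d + 2).choose r) ≤
          (2 ^ r * (2 * d + 1)) * (2 * (2 * d + 2).choose r) := by
        calc (2 ^ r * (2 * d + 1)) * ((2 * d + 2) * (d + 2).choose r)
            = (2 * d + 2) * (2 ^ r * ((2 * d + 1) * (d + 2).choose r)) := by ring
          _ ≤ (2 * d + 2) * ((2 * d + 4) * (2 * d + 2).choose r) := Nat.mul_le_mul_left _ h1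
          _ = ((2 * d + 2) * (2 * d + 4)) * (2 * d + 2).choose r := by ring
          _ ≤ (2 * (2 ^ r * (2 * d + 1))) * (2 * d + 2).choose r := Nat.mul_le_mul_right _ h2
          _ = _ := by ring
      have h4 := Nat.le_of_mul_le_mul_left h3 (by positivity)
      have h5 : (((2 * d + 2) * (d + 2).choose r : ℕ) : ℤ) ≤
          ((2 * (2 * d + 2).choose r : ℕ) : ℤ) := by exact_mod_cast h4
      push_cast at h5 ⊢
      nlinarith
    · -- k = 2c+1
      have hk2 : k / 2 + 1 = c + 1 := by omega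
      have h1 := two_pow_choose_odd c r (by omega)
      rw [hk2]
      have hk4 : 2 * c + 2 ≤ 2 ^ r := by
        have : 2 ∣ 2 ^ r := dvd_pow_self 2 (by omega)
        omega
      subst hc
      have h3 : 2 ^ r * ((2 * c + 1) * (c + 1).choose r) ≤ 2 ^ r * (2 * c + 1).choose r :=
        h1.trans (Nat.mul_le_mul_right _ hk4)
      have h4 := Nat.le_of_mul_le_mul_left h3 (by positivity)
      have h5 : (((2 * c + 1) * (c + 1).choose r : ℕ) : ℤ) ≤
          (((2 * c + 1).choose r : ℕ) : ℤ) := by exact_mod_cast h4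
      push_cast at h5 ⊢
      nlinarith

/-- Left end point: for `1 ≤ y ≤ r - 1`, `(2r+y) C(2r,r) ≤ (2r-y-1) C(2r+y,r)`. -/
theorem endpoint (r : ℕ) (hr : 3 ≤ r) (y : ℕ) (hy : 1 ≤ y) (hyr : y + 1 ≤ r) :
    (2 * (r : ℤ) + y) * ((2 * r).choose r : ℤ) ≤
      (2 * (r : ℤ) - y - 1) * ((2 * r + y).choose r : ℤ) := by
  induction y with
  | zero => omega
  | succ y ih =>
    have hid := Nat.choose_mul_succ_eq (2 * r + y) r
    have hid2 : ((2 * r + y).choose r : ℤ) * (2 * (r : ℤ) + y + 1) =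
        ((2 * r + (y + 1)).choose r : ℤ) * ((r : ℤ) + y + 1) := by
      have h1 : 2 * r + y + 1 - r = r + y + 1 := by omega
      rw [h1] at hid
      exact_mod_cast hid
    have hC : (0 : ℤ) ≤ ((2 * r + (y + 1)).choose r : ℤ) := by positivity
    have hr' : (3 : ℤ) ≤ r := by exact_mod_cast hr
    rcases Nat.eq_zero_or_pos y with rfl | hypos
    · simp only [add_zero, Nat.cast_zero, zero_add, Nat.cast_one] at hid2 hC ⊢
      have h2 : (2 * (r : ℤ) + 1) * ((2 * r).choose r : ℤ) =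
          ((2 * r + 1).choose r : ℤ) * ((r : ℤ) + 1) := by linarith
      rw [h2]
      nlinarith
    · have ih' := ih hypos (by omega)
      have hyr' : (y : ℤ) + 2 ≤ r := by exact_mod_cast hyr
      have hy0 : (0 : ℤ) ≤ y := by positivity
      have hpos : (0 : ℤ) < 2 * (r : ℤ) + y := by linarith
      -- multiply the induction hypothesis by (2r+y+1)
      have h1 : (2 * (r : ℤ) + y) * ((2 * (r : ℤ) + y + 1) * ((2 * r).choose r : ℤ)) ≤
          ((2 * (r : ℤ) - y - 1) * ((r : ℤ) + y + 1)) * ((2 * r + (y + 1)).choose r : ℤ) := by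
        calc (2 * (r : ℤ) + y) * ((2 * (r : ℤ) + y + 1) * ((2 * r).choose r : ℤ))
            = (2 * (r : ℤ) + y + 1) * ((2 * (r : ℤ) + y) * ((2 * r).choose r : ℤ)) := by ring
          _ ≤ (2 * (r : ℤ) + y + 1) *
              ((2 * (r : ℤ) - y - 1) * ((2 * r + y).choose r : ℤ)) :=
              mul_le_mul_of_nonneg_left ih' (by linarith)
          _ = (2 * (r : ℤ) - y - 1) *
              (((2 * r + y).choose r : ℤ) * (2 * (r : ℤ) + y + 1)) := by ring
          _ = _ := by rw [hid2]; ring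
      have h2 : ((2 * (r : ℤ) - y - 1) * ((r : ℤ) + y + 1)) ≤
          (2 * (r : ℤ) - y - 2) * (2 * (r : ℤ) + y) := by nlinarith
      have h3 : (2 * (r : ℤ) + y) * ((2 * (r : ℤ) + y + 1) * ((2 * r).choose r : ℤ)) ≤
          (2 * (r : ℤ) + y) *
            ((2 * (r : ℤ) - y - 2) * ((2 * r + (y + 1)).choose r : ℤ)) := by
        calc _ ≤ _ := h1
          _ ≤ ((2 * (r : ℤ) - y - 2) * (2 * (r : ℤ) + y)) *
              ((2 * r + (y + 1)).choose r : ℤ) := mul_le_mul_of_nonneg_right h2 hC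
          _ = _ := by ring
      have h4 := le_of_mul_le_mul_left h3 hpos
      push_cast at h4 ⊢
      linarith

/-- The part of (n5) with `a = b ≥ 2r`. -/
theorem n5_diag (r k a : ℕ) (hr : 3 ≤ r) (hk3 : k < 3 * r) (ha : 2 * r ≤ a) (hak : a < k) :
    (k : ℤ) * (a.choose r : ℤ) ≤ (2 * (a : ℤ) - k - 1) * (k.choose r : ℤ) := by
  obtain ⟨f, hf⟩ : ∃ f : ℕ → ℤ, ∀ a : ℕ, f a =
      (2 * (a : ℤ) - k - 1) * (k.choose r : ℤ) - (k : ℤ) * (a.choose r : ℤ) := ⟨_, fun _ => rfl⟩
  have hconc : ∀ i j, 2 * r ≤ i → i ≤ j → j < k - 1 → f (j + 1) - f j ≤ f (i + 1) - f i := by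
    intro i j _ hij _
    rw [hf, hf, hf, hf]
    have h1 := choose_diff i r (by omega)
    have h2 := choose_diff j r (by omega)
    have h3 := choose_mono_int (r - 1) hij
    have h4 : (k : ℤ) * (i.choose (r - 1) : ℤ) ≤ (k : ℤ) * (j.choose (r - 1) : ℤ) :=
      mul_le_mul_of_nonneg_left h3 (by positivity)
    push_cast
    nlinarith
  have h0 : 0 ≤ f (2 * r) := by
    rw [hf]
    obtain ⟨y, rfl⟩ : ∃ y, k = 2 * r + y := ⟨k - 2 * r, by omega⟩
    have h := endpoint r hr y (by omega) (by omega)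
    push_cast at h ⊢
    nlinarith
  have h1 : 0 ≤ f (k - 1) := by
    rw [hf, mul_choose_pred k r (by omega) (by omega)]
    have h1 : (((k - 1 : ℕ)) : ℤ) = (k : ℤ) - 1 := by
      rw [Nat.cast_sub (by omega)]; simp
    rw [h1]
    have h2 : (0 : ℤ) ≤ (k.choose r : ℤ) := by positivity
    have h3 : (3 : ℤ) ≤ r := by exact_mod_cast hr
    nlinarith
  have key := concave_nonneg f (2 * r) (k - 1) hconc h0 h1 a ha (by omega)
  rw [hf] at key
  linarith

theorem le_choose' (n j : ℕ) (h1 : 1 ≤ j) (h2 : j + 1 ≤ n) : n ≤ n.choose j := by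
  induction n generalizing j with
  | zero => omega
  | succ n ih =>
    obtain ⟨i, rfl⟩ : ∃ i, j = i + 1 := ⟨j - 1, by omega⟩
    rw [choose_step]
    rcases Nat.eq_zero_or_pos i with rfl | hi
    · simp
    · have h3 := ih i hi (by omega)
      have h4 : 1 ≤ n.choose (i + 1) := Nat.choose_pos (by omega)
      omega

theorem two_mul_le_choose (r : ℕ) (hr : 3 ≤ r) : 2 * (3 * r - 1) ≤ (3 * r - 1).choose r := by
  obtain ⟨s, rfl⟩ : ∃ s, r = s + 1 := ⟨r - 1, by omega⟩
  have h1 : 3 * (s + 1) - 1 = (3 * s + 1) + 1 := by omega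
  rw [h1]
  have h2 := Nat.add_one_mul_choose_eq (3 * s + 1) s
  have h3 := le_choose' (3 * s + 1) s (by omega) (by omega)
  have h4 : (s + 1) * (2 * (3 * s + 1 + 1)) ≤ (s + 1) * ((3 * s + 1 + 1).choose (s + 1)) := by
    calc (s + 1) * (2 * (3 * s + 1 + 1)) = (3 * s + 1 + 1) * (2 * (s + 1)) := by ring
      _ ≤ (3 * s + 1 + 1) * (3 * s + 1) := Nat.mul_le_mul_left _ (by omega)
      _ ≤ (3 * s + 1 + 1) * (3 * s + 1).choose s := Nat.mul_le_mul_left _ h3
      _ = (3 * s + 1 + 1).choose (s + 1) * (s + 1) := h2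
      _ = _ := by ring
  exact Nat.le_of_mul_le_mul_left h4 (by omega)

theorem three_mul_le_two_pow (r : ℕ) (hr : 3 ≤ r) : 3 * r ≤ 2 ^ r + 1 := by
  induction r with
  | zero => omega
  | succ r ih =>
    rcases Nat.lt_or_ge r 3 with h | h
    · have h2 : r = 2 := by omega
      subst h2
      norm_num
    · have := ih h
      rw [pow_succ]
      omega

/-- (n5) -/
theorem n5 (r k a b : ℕ) (hr : 3 ≤ r) (hrk : r ≤ k) (hk : k < 3 * r) (hab : a ≤ b) (hbk : b < k)
    (hk2 : k < a + b) :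
    (k : ℤ) * ((a.choose r : ℤ) + ((b / 2).choose r : ℤ)) ≤
      ((a : ℤ) + b - k) * (k.choose r : ℤ) := by
  have hkp : k ≤ 2 ^ r := by
    have := three_mul_le_two_pow r hr; omega
  have hK : (0 : ℤ) ≤ (k.choose r : ℤ) := by positivity
  have hG : (k : ℤ) * ((b / 2).choose r : ℤ) ≤ (k.choose r : ℤ) := by
    have h1 := n4 r k hkp
    have h2 : k * (b / 2).choose r ≤ k * (k / 2).choose r :=
      Nat.mul_le_mul_left _ (Nat.choose_le_choose _ (by omega))
    exact_mod_cast h2.trans h1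
  have hab' : (a : ℤ) ≤ b := by exact_mod_cast hab
  have hk2' : (k : ℤ) + 1 ≤ a + b := by exact_mod_cast hk2
  by_cases hA : 2 * a ≤ k
  · have hGa : (k : ℤ) * (a.choose r : ℤ) ≤ (k.choose r : ℤ) := by
      have h1 := n4 r k hkp
      have h2 : k * a.choose r ≤ k * (k / 2).choose r :=
        Nat.mul_le_mul_left _ (Nat.choose_le_choose _ (by omega))
      exact_mod_cast h2.trans h1
    by_cases h2 : k + 2 ≤ a + b
    · have h3 : (k : ℤ) + 2 ≤ a + b := by exact_mod_cast h2
      nlinarith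
    · have h3 : a + b = k + 1 := by omega
      have h4 : (a : ℤ) + b = k + 1 := by exact_mod_cast h3
      have h5 : ((a : ℤ) + b - k) = 1 := by linarith
      rw [h5, one_mul]
      by_cases hb : b < 2 * r
      · have : (b / 2).choose r = 0 := Nat.choose_eq_zero_of_lt (by omega)
        rw [this]; simpa using hGa
      · by_cases har : a < r
        · have : a.choose r = 0 := Nat.choose_eq_zero_of_lt har
          rw [this]; simpa using hG
        · have ha : a = r := by omega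
          have hb' : b = 2 * r := by omega
          have hk' : k = 3 * r - 1 := by omega
          subst ha hb'
          have h6 := two_mul_le_choose a hr
          rw [hk']
          have h7 : (2 * a / 2).choose a = 1 := by
            rw [Nat.mul_div_cancel_left _ (by norm_num)]; simp
          rw [h7]
          simp only [Nat.choose_self, Nat.cast_one]
          have h8 : ((2 * (3 * a - 1) : ℕ) : ℤ) ≤ (((3 * a - 1).choose a : ℕ) : ℤ) := by
            exact_mod_cast h6
          push_cast at h8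
          linarith
  · push Not at hA
    have hb0 := beta0 r k a hr hrk hkp hA (by omega)
    by_cases hba : a + 1 ≤ b
    · have h3 : (a : ℤ) + 1 ≤ b := by exact_mod_cast hba
      nlinarith
    · have h3 : b = a := by omega
      subst h3
      by_cases ha2 : b < 2 * r
      · have : (b / 2).choose r = 0 := Nat.choose_eq_zero_of_lt (by omega)
        rw [this]; push_cast; nlinarith
      · push Not at ha2
        have h4 := n5_diag r k b hr hk ha2 hbk
        nlinarith

/-- (n2) -/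
theorem n2 (r m : ℕ) (hr : 3 ≤ r) (hm : 2 * r ≤ m) (hm3 : m < 3 * r) :
    (m / 2).choose r ≤ (m - 2).choose (r - 2) := by
  obtain ⟨s, rfl⟩ : ∃ s, r = s + 2 := ⟨r - 2, by omega⟩
  set h := m / 2 with hh
  have h1 := Nat.choose_succ_right_eq h (s + 1)
  have h2 := Nat.choose_succ_right_eq h s
  have h3 : (h.choose (s + 2)) * ((s + 2) * (s + 1)) = h.choose s * ((h - s) * (h - (s + 1))) := by
    calc (h.choose (s + 2)) * ((s + 2) * (s + 1))
        = (h.choose (s + 1 + 1) * (s + 1 + 1)) * (s + 1) := by ring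
      _ = (h.choose (s + 1) * (h - (s + 1))) * (s + 1) := by rw [h1]
      _ = (h.choose (s + 1) * (s + 1)) * (h - (s + 1)) := by ring
      _ = (h.choose s * (h - s)) * (h - (s + 1)) := by rw [h2]
      _ = _ := by ring
  have h4 : (h.choose (s + 2)) * ((s + 2) * (s + 1)) ≤ h.choose s * ((s + 2) * (s + 1)) := by
    rw [h3]
    apply Nat.mul_le_mul_left
    apply Nat.mul_le_mul
    · omega
    · omega
  have h5 := Nat.le_of_mul_le_mul_right h4 (by positivity)
  calc h.choose (s + 2) ≤ h.choose s := h5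
    _ ≤ (m - 2).choose (s + 2 - 2) := by
      simp only [Nat.add_sub_cancel]
      exact Nat.choose_le_choose _ (by omega)

/-- (p1) -/
theorem p1 (r a b : ℕ) (hr : 1 ≤ r) (hab : a ≤ b) :
    (b.choose r : ℤ) + (2 ^ r - 1) * (a.choose r : ℤ) ≤ ((a + b).choose r : ℤ) := by
  obtain ⟨t, rfl⟩ : ∃ t, b = a + t := ⟨b - a, by omega⟩
  induction t with
  | zero =>
    have h := two_pow_choose a r
    have h2 : ((2 ^ r * a.choose r : ℕ) : ℤ) ≤ (((2 * a).choose r : ℕ) : ℤ) := by exact_mod_cast h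
    push_cast at h2
    have h3 : a + (a + 0) = 2 * a := by ring
    rw [h3]
    simp only [add_zero]
    linarith
  | succ t ih =>
    have h1 := choose_diff (a + t) r hr
    have h2 := choose_diff (a + (a + t)) r hr
    have h3 := choose_mono_int (r - 1) (show a + t ≤ a + (a + t) by omega)
    have h4 := ih (by omega)
    have h5 : a + (t + 1) = a + t + 1 := by ring
    have h6 : a + (a + (t + 1)) = a + (a + t) + 1 := by ring
    rw [h6, h5]
    linarith

/-- `C(b,r) ≤ C(c,r) + (b-c) C(k-1,r-1)` for `c ≤ b ≤ k`. -/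
theorem slope (r k c b : ℕ) (hr : 1 ≤ r) (hcb : c ≤ b) (hbk : b ≤ k) :
    (b.choose r : ℤ) ≤ (c.choose r : ℤ) + ((b : ℤ) - c) * ((k - 1).choose (r - 1) : ℤ) := by
  obtain ⟨t, rfl⟩ : ∃ t, b = c + t := ⟨b - c, by omega⟩
  induction t with
  | zero => simp
  | succ t ih =>
    have h1 := choose_diff (c + t) r hr
    have h2 := choose_mono_int (r - 1) (show c + t ≤ k - 1 by omega)
    have h3 := ih (by omega) (by omega)
    have h5 : c + (t + 1) = c + t + 1 := by ring
    rw [h5]
    push_cast at h3 ⊢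
    nlinarith

/-- `k C(k-1,r-1) = r C(k,r)`. -/
theorem mul_choose_pred' (r k : ℕ) (hr : 1 ≤ r) (hk : 1 ≤ k) :
    (k : ℤ) * ((k - 1).choose (r - 1) : ℤ) = (r : ℤ) * (k.choose r : ℤ) := by
  obtain ⟨n, rfl⟩ : ∃ n, k = n + 1 := ⟨k - 1, by omega⟩
  obtain ⟨s, rfl⟩ : ∃ s, r = s + 1 := ⟨r - 1, by omega⟩
  have h := Nat.add_one_mul_choose_eq n s
  simp only [Nat.add_sub_cancel]
  have h2 : (((n + 1) * n.choose s : ℕ) : ℤ) = (((n + 1).choose (s + 1) * (s + 1) : ℕ) : ℤ) := by
    rw [h]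
  push_cast at h2 ⊢
  linarith

/-- (γ) -/
theorem gamma0 (r k a : ℕ) (hr : 2 ≤ r) (ha : k ≤ 2 * a) (hak : a ≤ k) :
    (k : ℤ) * (2 ^ r * (a.choose r : ℤ)) ≤
      ((k : ℤ) + 2 ^ r * (2 * (a : ℤ) - k)) * (k.choose r : ℤ) := by
  obtain ⟨f, hf⟩ : ∃ f : ℕ → ℤ, ∀ a : ℕ, f a =
      ((k : ℤ) + 2 ^ r * (2 * (a : ℤ) - k)) * (k.choose r : ℤ) -
        (k : ℤ) * (2 ^ r * (a.choose r : ℤ)) := ⟨_, fun _ => rfl⟩
  have hconc : ∀ i j, (k + 1) / 2 ≤ i → i ≤ j → j < k → f (j + 1) - f j ≤ f (i + 1) - f i := by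
    intro i j _ hij _
    rw [hf, hf, hf, hf]
    have h1 := choose_diff i r (by omega)
    have h2 := choose_diff j r (by omega)
    have h3 := choose_mono_int (r - 1) hij
    have h4 : (k : ℤ) * (2 ^ r * (i.choose (r - 1) : ℤ)) ≤
        (k : ℤ) * (2 ^ r * (j.choose (r - 1) : ℤ)) := by gcongr
    rw [← h1, ← h2] at h4
    push_cast at h4 ⊢
    nlinarith
  have hpow : (0 : ℤ) < 2 ^ r := by positivity
  have hK : (0 : ℤ) ≤ (k.choose r : ℤ) := by positivity
  suffices hleft : 0 ≤ f ((k + 1) / 2) by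
    have hright : 0 ≤ f k := by
      rw [hf]
      have hk0 : (0 : ℤ) ≤ (k : ℤ) := by positivity
      nlinarith
    have key := concave_nonneg f ((k + 1) / 2) k hconc hleft hright a (by omega) hak
    rw [hf] at key
    linarith
  · rw [hf]
    rcases Nat.even_or_odd' k with ⟨c, hc | hc⟩
    · have hk2 : (k + 1) / 2 = c := by omega
      have h := two_pow_choose c r
      have h2 : ((2 ^ r * c.choose r : ℕ) : ℤ) ≤ (((2 * c).choose r : ℕ) : ℤ) := by
        exact_mod_cast h
      rw [hk2, hc]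
      push_cast at h2 ⊢
      have hc0 : (0 : ℤ) ≤ (c : ℤ) := by positivity
      nlinarith
    · have hk2 : (k + 1) / 2 = c + 1 := by omega
      have h := two_pow_choose_odd c r (by omega)
      have h2 : ((2 ^ r * ((2 * c + 1) * (c + 1).choose r) : ℕ) : ℤ) ≤
          (((2 * c + 2) * (2 * c + 1).choose r : ℕ) : ℤ) := by
        exact_mod_cast h
      rw [hk2]
      subst hc
      push_cast at h2 ⊢
      nlinarith

/-- (p2) -/
theorem p2 (r k a b : ℕ) (hr : 2 ≤ r) (hab : a ≤ b) (hbk : b < k)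
    (hk2 : k ≤ a + b) :
    (k : ℤ) * ((b.choose r : ℤ) + (2 ^ r - 1) * (a.choose r : ℤ)) ≤
      ((k : ℤ) + 2 ^ r * ((a : ℤ) + b - k)) * (k.choose r : ℤ) := by
  have hK : (0 : ℤ) ≤ (k.choose r : ℤ) := by positivity
  have hrpow : (r : ℤ) ≤ 2 ^ r := by
    exact_mod_cast (Nat.lt_two_pow_self).le
  have hk0 : (0 : ℤ) ≤ (k : ℤ) := by positivity
  have hid := mul_choose_pred' r k (by omega) (by omega)
  have hk2' : (k : ℤ) ≤ a + b := by exact_mod_cast hk2
  have hab' : (a : ℤ) ≤ b := by exact_mod_cast hab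
  by_cases hA : 2 * a ≤ k
  · have h1 := slope r k (k - a) b (by omega) (by omega) (by omega)
    have h2 := p1 r a (k - a) (by omega) (by omega)
    have h3 : a + (k - a) = k := by omega
    rw [h3] at h2
    have h4 : (((k - a : ℕ)) : ℤ) = (k : ℤ) - a := by
      rw [Nat.cast_sub (by omega)]
    rw [h4] at h1
    have h5 : (k : ℤ) * ((b.choose r : ℤ) + (2 ^ r - 1) * (a.choose r : ℤ)) ≤
        (k : ℤ) * ((k.choose r : ℤ) +
          ((b : ℤ) - (k - a)) * ((k - 1).choose (r - 1) : ℤ)) := by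
      apply mul_le_mul_of_nonneg_left _ hk0
      linarith
    have h6 : (k : ℤ) * ((k.choose r : ℤ) +
          ((b : ℤ) - (k - a)) * ((k - 1).choose (r - 1) : ℤ)) =
        (k : ℤ) * (k.choose r : ℤ) + ((a : ℤ) + b - k) * ((r : ℤ) * (k.choose r : ℤ)) := by
      rw [← hid]; ring
    rw [h6] at h5
    have h7 : ((a : ℤ) + b - k) * ((r : ℤ) * (k.choose r : ℤ)) ≤
        ((a : ℤ) + b - k) * (2 ^ r * (k.choose r : ℤ)) := by
      apply mul_le_mul_of_nonneg_left _ (by linarith)
      exact mul_le_mul_of_nonneg_right hrpow hK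
    nlinarith
  · push Not at hA
    have h1 := slope r k a b (by omega) hab (by omega)
    have h2 := gamma0 r k a hr (by omega) (by omega)
    have h5 : (k : ℤ) * ((b.choose r : ℤ) + (2 ^ r - 1) * (a.choose r : ℤ)) ≤
        (k : ℤ) * (2 ^ r * (a.choose r : ℤ) +
          ((b : ℤ) - a) * ((k - 1).choose (r - 1) : ℤ)) := by
      apply mul_le_mul_of_nonneg_left _ hk0
      linarith
    have h6 : (k : ℤ) * (2 ^ r * (a.choose r : ℤ) +
          ((b : ℤ) - a) * ((k - 1).choose (r - 1) : ℤ)) =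
        (k : ℤ) * (2 ^ r * (a.choose r : ℤ)) + ((b : ℤ) - a) * ((r : ℤ) * (k.choose r : ℤ)) := by
      rw [← hid]; ring
    rw [h6] at h5
    have h7 : ((b : ℤ) - a) * ((r : ℤ) * (k.choose r : ℤ)) ≤
        ((b : ℤ) - a) * (2 ^ r * (k.choose r : ℤ)) := by
      apply mul_le_mul_of_nonneg_left _ (by linarith)
      exact mul_le_mul_of_nonneg_right hrpow hK
    nlinarith

end Pool.Agent.H53.Mader
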