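import Mathlib
import Pool.Agent.H53.Mader.Basic
import Pool.Agent.H53.Mader.Binom

set_option autoImplicit false

namespace Pool.Agent.H53.Mader

open Finset

variable {V : Type} [DecidableEq V] {E : Finset (Finset V)} {k r : ℕ} {U : Finset V}

/-- WLOG version of `Good`: a separation whose first side is the smaller one. -/
theorem Good.sep (hG : Good E k U) {S : Finset V} (hS : S ⊆ U) {m : ℕ} (hm : 2 ≤ m)
    (hcard : S.card = k + m) : ∃ Z A B : Finset V, Sep E k S Z A B ∧ A.card ≤ B.card ∧
      A.card + B.card = m ∧ 1 ≤ A.card ∧ 1 ≤ B.card := by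
  obtain ⟨Z, A, B, h⟩ := hG S hS (by omega)
  have h1 := h.card
  have h2 := card_pos.2 h.neA
  have h3 := card_pos.2 h.neB
  rcases le_total A.card B.card with hle | hle
  · exact ⟨Z, A, B, h, hle, by omega, h2, h3⟩
  · exact ⟨Z, B, A, h.symm, hle, by omega, h3, h2⟩

/-- For `m < 3r`, `g ≤ C(⌊m/2⌋, r)`. -/
theorem g_le (hG : Good E k U) (hr : 3 ≤ r) :
    ∀ m, m < 3 * r → ∀ S ⊆ U, S.card = k + m →
      m.choose r ≤ NN E r S + (m / 2).choose r := by
  intro m
  induction m using Nat.strong_induction_on with
  | _ m ih =>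
    intro hm S hS hcard
    by_cases hmr : m < r
    · rw [Nat.choose_eq_zero_of_lt hmr]; exact Nat.zero_le _
    push Not at hmr
    obtain ⟨Z, A, B, hs, hab, hsum, hA, hB⟩ := hG.sep hS (show 2 ≤ m by omega) hcard
    have hF := hs.F1 r
    rw [hsum] at hF
    have hIH := ih B.card (by omega) (by omega) (Z ∪ B) (hs.subZB.trans hS) hs.card_ZB
    have hEA := EE_le E r A
    by_cases hb : B.card < 2 * r
    · have h0 : (B.card / 2).choose r = 0 := Nat.choose_eq_zero_of_lt (by omega)
      rw [h0] at hIH
      have h1 : A.card.choose r ≤ (m / 2).choose r := Nat.choose_le_choose _ (by omega)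
      omega
    · have h0 : A.card.choose r = 0 := Nat.choose_eq_zero_of_lt (by omega)
      have h1 : (B.card / 2).choose r ≤ (m / 2).choose r := Nat.choose_le_choose _ (by omega)
      omega

/-- For `m < 3r` and every `m`-set `Y`: `2 g ≤ e(Y)`. -/
theorem unit_lemma (hG : Good E k U) (hr : 3 ≤ r) :
    ∀ m, m < 3 * r → ∀ S ⊆ U, S.card = k + m → ∀ Y ⊆ S, Y.card = m →
      2 * m.choose r ≤ 2 * NN E r S + EE E r Y := by
  intro m
  induction m using Nat.strong_induction_on with
  | _ m ih =>
    intro hm S hS hcard Y hY hYcard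
    have hg := g_le hG hr m hm S hS hcard
    by_cases hmr : m < 2 * r
    · have h0 : (m / 2).choose r = 0 := Nat.choose_eq_zero_of_lt (by omega)
      omega
    push Not at hmr
    obtain ⟨Z, A, B, hs, hab, hsum, hA, hB⟩ := hG.sep hS (show 2 ≤ m by omega) hcard
    by_cases hal : A ∪ B ⊆ Y
    · -- aligned case
      have hFA := hs.F1 r
      have hFB := hs.symm.F1 r
      rw [hsum] at hFA
      rw [add_comm B.card A.card, hsum] at hFB
      have hEY := EE_add_le (E := E) (show 1 ≤ r by omega) hs.dAB
        (subset_union_left.trans hal) (subset_union_right.trans hal)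
      by_cases hb : B.card < 2 * r
      · have h1 := g_le hG hr B.card (by omega) (Z ∪ B) (hs.subZB.trans hS) hs.card_ZB
        have h2 := g_le hG hr A.card (by omega) (Z ∪ A) (hs.subZA.trans hS) hs.card_ZA
        have h0 : (B.card / 2).choose r = 0 := Nat.choose_eq_zero_of_lt (by omega)
        have h0' : (A.card / 2).choose r = 0 := Nat.choose_eq_zero_of_lt (by omega)
        omega
      · have h0 : A.card.choose r = 0 := Nat.choose_eq_zero_of_lt (by omega)
        have hEA := EE_le E r A
        have h1 := ih B.card (by omega) (by omega) (Z ∪ B) (hs.subZB.trans hS) hs.card_ZB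
          B subset_union_right rfl
        omega
    · -- misaligned case
      have hmis : NN E r Y + (m - 2).choose (r - 2) ≤ NN E r S := by
        rw [Finset.not_subset] at hal
        obtain ⟨v, hv, hvY⟩ := hal
        rw [mem_union] at hv
        rcases hv with hv | hv
        · have := hs.F3 (show 2 ≤ r by omega) hY hv hvY
          rwa [hsum] at this
        · have := hs.symm.F3 (show 2 ≤ r by omega) hY hv hvY
          rwa [add_comm B.card A.card, hsum] at this
      have h1 := n2 r m hr hmr hm
      have h2 := EE_add_NN E r Y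
      rw [hYcard] at h2
      omega

/-- Main induction for `r ≤ k < 3r`. -/
theorem main_small (hG : Good E k U) (hr : 3 ≤ r) (hrk : r ≤ k) (hk : k < 3 * r) :
    ∀ m, k < m → ∀ S ⊆ U, S.card = k + m →
      (k : ℤ) * (m.choose r : ℤ) ≤ (k : ℤ) * (NN E r S : ℤ) + ((m : ℤ) - k) * (k.choose r : ℤ) := by
  intro m
  induction m using Nat.strong_induction_on with
  | _ m ih =>
    intro hm S hS hcard
    have hkp : k ≤ 2 ^ r := by
      have := three_mul_le_two_pow r hr; omega
    obtain ⟨Z, A, B, hs, hab, hsum, hA, hB⟩ := hG.sep hS (show 2 ≤ m by omega) hcard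
    have hk0 : (0 : ℤ) ≤ (k : ℤ) := by positivity
    have hsum' : (A.card : ℤ) + B.card = m := by exact_mod_cast hsum
    by_cases ha : A.card < k
    · -- one side is small
      have hF := hs.F1 r
      rw [hsum] at hF
      have hEA := EE_le E r A
      have hF' : (m.choose r : ℤ) + (NN E r (Z ∪ B) : ℤ) ≤
          (NN E r S : ℤ) + (B.card.choose r : ℤ) + (A.card.choose r : ℤ) := by
        exact_mod_cast hF.trans (Nat.add_le_add_left hEA _)
      have hF'' := mul_le_mul_of_nonneg_left hF' hk0
      have h3 := n3 r k A.card (by omega) hrk hA ha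
      by_cases hb : k < B.card
      · have h4 := ih B.card (by omega) hb (Z ∪ B) (hs.subZB.trans hS) hs.card_ZB
        have hK : (0 : ℤ) ≤ (k.choose r : ℤ) := by positivity
        nlinarith
      · by_cases hb2 : B.card = k
        · have h4 := g_le hG hr B.card (by omega) (Z ∪ B) (hs.subZB.trans hS) hs.card_ZB
          rw [hb2] at h4
          have h5 := n4 r k hkp
          have h4' : (k.choose r : ℤ) ≤ (NN E r (Z ∪ B) : ℤ) + ((k / 2).choose r : ℤ) := by
            exact_mod_cast h4
          have h5' : (k : ℤ) * ((k / 2).choose r : ℤ) ≤ (k.choose r : ℤ) := by exact_mod_cast h5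
          have h6 := mul_le_mul_of_nonneg_left h4' hk0
          rw [hb2] at hF'' hsum'
          have h7 : (A.card : ℤ) = m - k := by linarith
          rw [h7] at h3
          linarith
        · have hb3 : B.card < k := by omega
          have h4 := g_le hG hr B.card (by omega) (Z ∪ B) (hs.subZB.trans hS) hs.card_ZB
          have h4' : (B.card.choose r : ℤ) ≤
              (NN E r (Z ∪ B) : ℤ) + ((B.card / 2).choose r : ℤ) := by
            exact_mod_cast h4
          have h6 := mul_le_mul_of_nonneg_left h4' hk0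
          have h7 := n5 r k A.card B.card hr hrk hk hab hb3 (by omega)
          rw [show (A.card : ℤ) + B.card - k = m - k by linarith] at h7
          linarith
    · -- both sides have at least `k` elements
      push Not at ha
      have hF := hs.F2 r
      rw [hsum] at hF
      have hZ := EE_add_NN E r Z
      rw [hs.cardZ] at hZ
      -- each side
      have side : ∀ P : Finset V, Z ∪ P ⊆ U → (Z ∪ P).card = k + P.card → k ≤ P.card →
          P.card < m →
          2 * ((k : ℤ) * (P.card.choose r : ℤ)) ≤ 2 * ((k : ℤ) * (NN E r (Z ∪ P) : ℤ)) +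
            2 * (((P.card : ℤ) - k) * (k.choose r : ℤ)) + (k : ℤ) * (EE E r Z : ℤ) := by
        intro P hP hcP hkP hPm
        rcases Nat.lt_or_ge k P.card with h1 | h1
        · have h2 := ih P.card hPm h1 (Z ∪ P) hP hcP
          have h3 : (0 : ℤ) ≤ (k : ℤ) * (EE E r Z : ℤ) := by positivity
          linarith
        · have hPk : P.card = k := by omega
          have h2 := unit_lemma hG hr P.card (by omega) (Z ∪ P) hP hcP Z subset_union_left
            (by rw [hs.cardZ, hPk])
          have h2' : 2 * (P.card.choose r : ℤ) ≤ 2 * (NN E r (Z ∪ P) : ℤ) + (EE E r Z : ℤ) := by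
            exact_mod_cast h2
          have h3 := mul_le_mul_of_nonneg_left h2' hk0
          rw [hPk] at h3 ⊢
          linarith
      have hA' := side A (hs.subZA.trans hS) hs.card_ZA ha (by omega)
      have hB' := side B (hs.subZB.trans hS) hs.card_ZB (by omega) (by omega)
      have hF' : (m.choose r : ℤ) + (NN E r (Z ∪ A) : ℤ) + (NN E r (Z ∪ B) : ℤ) ≤
          (NN E r S : ℤ) + (A.card.choose r : ℤ) + (B.card.choose r : ℤ) + (NN E r Z : ℤ) := by
        exact_mod_cast hF
      have hF'' := mul_le_mul_of_nonneg_left hF' hk0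
      have hZ' : (EE E r Z : ℤ) + (NN E r Z : ℤ) = (k.choose r : ℤ) := by exact_mod_cast hZ
      have hZ'' : (k : ℤ) * ((EE E r Z : ℤ) + (NN E r Z : ℤ)) = (k : ℤ) * (k.choose r : ℤ) := by
        rw [hZ']
      have hm' : (m : ℤ) = A.card + B.card := hsum'.symm
      rw [hm'] at *
      nlinarith

/-- `(2^r - 1) g ≤ C(m, r)`. -/
theorem g_le_general (hG : Good E k U) (hr : 2 ≤ r) :
    ∀ m, ∀ S ⊆ U, S.card = k + m →
      (2 ^ r - 1) * (m.choose r : ℤ) ≤ (2 ^ r - 1) * (NN E r S : ℤ) + (m.choose r : ℤ) := by
  intro m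
  have hM : (0 : ℤ) ≤ 2 ^ r - 1 := by
    have : (1 : ℤ) ≤ 2 ^ r := one_le_pow₀ (by norm_num)
    linarith
  induction m using Nat.strong_induction_on with
  | _ m ih =>
    intro S hS hcard
    by_cases hmr : m < r
    · rw [Nat.choose_eq_zero_of_lt hmr]
      have h0 : (0 : ℤ) ≤ (2 ^ r - 1) * (NN E r S : ℤ) := mul_nonneg hM (by positivity)
      push_cast
      linarith
    push Not at hmr
    obtain ⟨Z, A, B, hs, hab, hsum, hA, hB⟩ := hG.sep hS (show 2 ≤ m by omega) hcard
    have hF := hs.F1 r
    rw [hsum] at hF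
    have hEA := EE_le E r A
    have hF' : (m.choose r : ℤ) + (NN E r (Z ∪ B) : ℤ) ≤
        (NN E r S : ℤ) + (B.card.choose r : ℤ) + (A.card.choose r : ℤ) := by
      exact_mod_cast hF.trans (Nat.add_le_add_left hEA _)
    have hF'' := mul_le_mul_of_nonneg_left hF' hM
    have hIH := ih B.card (by omega) (Z ∪ B) (hs.subZB.trans hS) hs.card_ZB
    have h1 := p1 r A.card B.card (by omega) hab
    rw [hsum] at h1
    linarith

/-- Main induction for the general bound. -/
theorem main_general (hG : Good E k U) (hr : 2 ≤ r) (hrk : r ≤ k) :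
    ∀ m, k ≤ m → ∀ S ⊆ U, S.card = k + m →
      (k : ℤ) * ((2 ^ r - 1) * (m.choose r : ℤ)) ≤
        (k : ℤ) * ((2 ^ r - 1) * (NN E r S : ℤ)) +
          (2 ^ r * (m : ℤ) - (k : ℤ) * (2 ^ r - 1)) * (k.choose r : ℤ) := by
  intro m
  have hM : (0 : ℤ) ≤ 2 ^ r - 1 := by
    have : (1 : ℤ) ≤ 2 ^ r := one_le_pow₀ (by norm_num)
    linarith
  have hk0 : (0 : ℤ) ≤ (k : ℤ) := by positivity
  have hK : (0 : ℤ) ≤ (k.choose r : ℤ) := by positivity
  have hkM : (0 : ℤ) ≤ (k : ℤ) * (2 ^ r - 1) := mul_nonneg hk0 hM
  induction m using Nat.strong_induction_on with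
  | _ m ih =>
    intro hm S hS hcard
    rcases hm.eq_or_lt with rfl | hm
    · have h1 := g_le_general hG hr k S hS hcard
      have h2 := mul_le_mul_of_nonneg_left h1 hk0
      nlinarith
    obtain ⟨Z, A, B, hs, hab, hsum, hA, hB⟩ := hG.sep hS (show 2 ≤ m by omega) hcard
    have hsum' : (A.card : ℤ) + B.card = m := by exact_mod_cast hsum
    by_cases ha : A.card < k
    · have hF := hs.F1 r
      rw [hsum] at hF
      have hEA := EE_le E r A
      have hF' : (m.choose r : ℤ) + (NN E r (Z ∪ B) : ℤ) ≤
          (NN E r S : ℤ) + (B.card.choose r : ℤ) + (A.card.choose r : ℤ) := by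
        exact_mod_cast hF.trans (Nat.add_le_add_left hEA _)
      have hF'' := mul_le_mul_of_nonneg_left hF' hkM
      by_cases hb : k ≤ B.card
      · have h4 := ih B.card (by omega) hb (Z ∪ B) (hs.subZB.trans hS) hs.card_ZB
        have h3 := n3 r k A.card hr hrk hA ha
        have h5 := mul_le_mul_of_nonneg_left h3 hM
        have h6 : (0 : ℤ) ≤ (2 ^ r : ℤ) := by positivity
        have hA0 : (0 : ℤ) ≤ (A.card : ℤ) := by positivity
        have h7 : (0 : ℤ) ≤ (A.card : ℤ) * (k.choose r : ℤ) := mul_nonneg hA0 hK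
        have h8 : (0 : ℤ) ≤ (2 ^ r - 1) * (k.choose r : ℤ) := mul_nonneg hM hK
        rw [← hsum']
        nlinarith
      · push Not at hb
        have h4 := g_le_general hG hr B.card (Z ∪ B) (hs.subZB.trans hS) hs.card_ZB
        have h5 := mul_le_mul_of_nonneg_left h4 hk0
        have h6 := p2 r k A.card B.card hr hab hb (by omega)
        rw [show (A.card : ℤ) + B.card - k = m - k by linarith] at h6
        nlinarith
    · push Not at ha
      have hF := hs.F2 r
      rw [hsum] at hF
      have hZ := EE_add_NN E r Z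
      rw [hs.cardZ] at hZ
      have hF' : (m.choose r : ℤ) + (NN E r (Z ∪ A) : ℤ) + (NN E r (Z ∪ B) : ℤ) ≤
          (NN E r S : ℤ) + (A.card.choose r : ℤ) + (B.card.choose r : ℤ) + (NN E r Z : ℤ) := by
        exact_mod_cast hF
      have hF'' := mul_le_mul_of_nonneg_left hF' hkM
      have hZ' : (NN E r Z : ℤ) ≤ (k.choose r : ℤ) := by
        have : NN E r Z ≤ k.choose r := by omega
        exact_mod_cast this
      have hZ'' := mul_le_mul_of_nonneg_left hZ' hkM
      have hA' := ih A.card (by omega) ha (Z ∪ A) (hs.subZA.trans hS) hs.card_ZA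
      have hB' := ih B.card (by omega) (by omega) (Z ∪ B) (hs.subZB.trans hS) hs.card_ZB
      rw [← hsum']
      nlinarith

end Pool.Agent.H53.Mader
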